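import Pool.Agent.Helper45.LinK.GoalsK

/-! # Packet CORE: assembly of the main theorem in coordinates -/

open Complex Metric Set Filter Topology MeasureTheory
open scoped ContDiff ComplexConjugate ComplexOrder

namespace Pool.Agent.Helper59.LinK

open Pool.Agent.Helper45.LinK
open Pool.Agent.Helper95.Lin Pool.Agent.Helper16.Abund Pool.Agent.Helper92.Orb

/-- transfer of a Kaehler action to equal maps -/
theorem KAct.congr {n : ℕ} {M : Set (Cn n)} {Γ : Type} [Group Γ] {F T : Γ → Cn n → Cn n}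
    {H : Cn n → Matrix (Fin n) (Fin n) ℂ} (h : KAct M F H) (he : ∀ γ, ∀ v ∈ M, F γ v = T γ v) :
    KAct M T H where
  act :=
    { isOpen := h.act.isOpen
      holo := fun γ => (h.act.holo γ).congr fun x hx => (he γ x hx).symm
      maps := fun γ x hx => by
        rw [← he γ x hx]
        exact h.act.maps γ x hx
      one := fun x hx => by
        rw [← he 1 x hx]
        exact h.act.one x hx
      mul := fun γ γ' x hx => by
        rw [← he _ x hx, ← he γ' x hx, ← he γ _ (h.act.maps γ' x hx)]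
        exact h.act.mul γ γ' x hx }
  conn := h.conn
  proper := fun K hKM hK => by
    refine (h.proper K hKM hK).subset ?_
    rintro γ ⟨x, hx, hT⟩
    refine ⟨x, hx, ?_⟩
    rw [he γ x (hKM hx)]
    exact hT
  coc := by
    obtain ⟨K, hKM, hK, hc⟩ := h.coc
    refine ⟨K, hKM, hK, fun x hx => ?_⟩
    obtain ⟨γ, hγ⟩ := hc x hx
    refine ⟨γ, ?_⟩
    rw [← he γ x hx]
    exact hγ
  posDef := h.posDef
  smooth := h.smooth
  closed := h.closed
  inv := fun γ x hx u v => by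
    have e1 : T γ =ᶠ[𝓝 x] F γ := by
      filter_upwards [h.act.isOpen.mem_nhds hx] with y hy
      exact (he γ y hy).symm
    rw [e1.fderiv_eq, ← he γ x hx]
    exact h.inv γ x hx u v

section

variable {b k : ℕ} {D : Set (Cn b)} {Γ : Type} [Group Γ] {g : Γ → Cn b → Cn b}
  {A : Γ → Cn b → CE k} {β : Γ → Cn b → Cn k}

/-- `ν` acts on the fibre over `z` as the translation by `c`. -/
def TrF (g : Γ → Cn b → Cn b) (A : Γ → Cn b → CE k) (β : Γ → Cn b → Cn k) (z : Cn b) (ν : Γ)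
    (c : Cn k) : Prop :=
  g ν z = z ∧ A ν z = 1 ∧ β ν z = c

theorem TrF.one (h : LActK D g A β) {z : Cn b} (hz : z ∈ D) : TrF g A β z (1 : Γ) 0 :=
  ⟨h.base.act.one z hz, h.a_one z hz, h.b_one z hz⟩

theorem TrF.mul (h : LActK D g A β) {z : Cn b} (hz : z ∈ D) {ν ν' : Γ} {c c' : Cn k}
    (h1 : TrF g A β z ν c) (h2 : TrF g A β z ν' c') : TrF g A β z (ν * ν') (c + c') := by
  obtain ⟨a1, a2, a3⟩ := h1
  obtain ⟨b1, b2, b3⟩ := h2
  refine ⟨?_, ?_, ?_⟩
  · rw [h.base.act.mul _ _ z hz, b1, a1]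
  · rw [h.a_mul _ _ z hz, b1, a2, b2, one_mul]
  · rw [h.b_mul _ _ z hz, b1, a2, b3, a3, ContinuousLinearMap.one_apply, add_comm]

theorem TrF.inv (h : LActK D g A β) {z : Cn b} (hz : z ∈ D) {ν : Γ} {c : Cn k}
    (h1 : TrF g A β z ν c) : TrF g A β z ν⁻¹ (-c) := by
  obtain ⟨a1, a2, a3⟩ := h1
  have e1 := h.base.act.inv_left ν hz
  rw [a1] at e1
  have e2 := h.a_mul ν⁻¹ ν z hz
  rw [inv_mul_cancel, h.a_one z hz, a1, a2, mul_one] at e2
  have e3 := h.b_mul ν⁻¹ ν z hz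
  rw [inv_mul_cancel, h.b_one z hz, a1, a3, ← e2, ContinuousLinearMap.one_apply] at e3
  exact ⟨e1, e2.symm, (neg_eq_of_add_eq_zero_right e3.symm).symm⟩

theorem TrF.pow (h : LActK D g A β) {z : Cn b} (hz : z ∈ D) {ν : Γ} {c : Cn k}
    (h1 : TrF g A β z ν c) (n : ℕ) : TrF g A β z (ν ^ n) ((n : ℂ) • c) := by
  induction n with
  | zero => simpa using TrF.one h hz
  | succ n ih =>
    have := TrF.mul h hz ih h1
    rw [pow_succ]
    push_cast
    rw [add_smul, one_smul]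
    exact this

theorem TrF.zpow (h : LActK D g A β) {z : Cn b} (hz : z ∈ D) {ν : Γ} {c : Cn k}
    (h1 : TrF g A β z ν c) (n : ℤ) : TrF g A β z (ν ^ n) ((n : ℂ) • c) := by
  obtain ⟨m, rfl | rfl⟩ := n.eq_nat_or_neg
  · rw [zpow_natCast]
    simpa using TrF.pow h hz h1 m
  · rw [zpow_neg, zpow_natCast]
    have := TrF.inv h hz (TrF.pow h hz h1 m)
    push_cast
    rw [neg_smul]
    exact this

theorem TrF.sum (h : LActK D g A β) {p : ℕ} (ν : Fin p → Γ) (m : Fin p → ℤ) :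
    ∃ γ : Γ, ∀ z ∈ D, (∀ l, TrF g A β z (ν l) (β (ν l) z)) →
      TrF g A β z γ (∑ l, ((m l : ℝ) : ℂ) • β (ν l) z) := by
  induction p with
  | zero =>
    refine ⟨1, fun z hz _ => ?_⟩
    rw [Finset.univ_eq_empty, Finset.sum_empty]
    exact TrF.one h hz
  | succ p ih =>
    obtain ⟨γ, hγ⟩ := ih (fun l => ν l.castSucc) (fun l => m l.castSucc)
    refine ⟨γ * ν (Fin.last p) ^ (m (Fin.last p)), fun z hz hl => ?_⟩
    rw [Fin.sum_univ_castSucc]
    have h1 := hγ z hz (fun l => hl l.castSucc)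
    have h2 := TrF.zpow h hz (hl (Fin.last p)) (m (Fin.last p))
    have h3 := TrF.mul h hz h1 h2
    simpa using h3

end

theorem CORE : S_AFFK → S_DISCRK → S_LATTK → S_CORE := by
  intro hAFF hDISC hLATT b k D Γ _ F H hD hK hQ
  obtain ⟨g, A, β, hL, hT⟩ := hAFF hD hK hQ
  have hK' : KAct (tubeK D k) (TtK g A β) H := KAct.congr hK hT
  obtain ⟨ν, hν, hind⟩ := hLATT hL (hDISC hL hK')
  refine ⟨fun z l => β (ν l) z, ⟨?_, fun z hz => hind z hz⟩, fun m => ?_⟩
  · rw [differentiableOn_pi]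
    intro l
    exact hL.b_holo (ν l)
  · obtain ⟨γ, hγ⟩ := TrF.sum hL ν m
    refine ⟨γ, fun v hv => ?_⟩
    have hz : base v ∈ D := hv
    obtain ⟨f1, f2, f3⟩ := hγ (base v) hz fun l => ⟨(hν l _ hz).1, (hν l _ hz).2, rfl⟩
    rw [hT γ v hv]
    unfold TtK shift
    rw [f1, f2, f3]
    rfl

end Pool.Agent.Helper59.LinK
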